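import Mathlib
import Pool.Agent.H74.Conds
import Pool.Agent.H74.Detect
import Pool.Agent.H74.CWX

/-!
# A finite complex that covers itself with an infinite cyclic cover that is not finitely dominated

The answer to Q2 is negative. There is a connected finite CW complex `X` with a surjection
`φ : π₁(X) → ℤ` with finitely presented kernel `G`, and a homotopy equivalence `h : X → X₂` to
its double cover with `h_♯(G) = G`, such that the infinite cyclic cover `X_∞` is not finitely
dominated (it is not even dominated by a compact space).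
-/

set_option autoImplicit false

namespace Pool.Agent.Results.MP_88597d_gt.NotFinDominated

open Pool.H74 Pool.H74.GS

/-- A space is finitely dominated if it is a homotopy retract of a finite CW complex. -/
def FinitelyDominated (Y : Type) [TopologicalSpace Y] : Prop :=
  ∃ (K : Type) (_ : TopologicalSpace K) (_ : T2Space K)
    (_ : Topology.CWComplex (Set.univ : Set K)),
    Topology.RelCWComplex.Finite (Set.univ : Set K) ∧
      ∃ (i : C(Y, K)) (r : C(K, Y)), (r.comp i).Homotopic (ContinuousMap.id Y)

/-- A space is compactly dominated if it is a homotopy retract of a compact space. -/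
def CompactlyDominated (Y : Type) [TopologicalSpace Y] : Prop :=
  ∃ (K : Type) (_ : TopologicalSpace K) (_ : CompactSpace K) (i : C(Y, K)) (r : C(K, Y)),
    (r.comp i).Homotopic (ContinuousMap.id Y)

/-- A finite CW complex is compact. -/
theorem compactSpace_of_finite (K : Type) [TopologicalSpace K] [T2Space K]
    [Topology.CWComplex (Set.univ : Set K)] [Topology.RelCWComplex.Finite (Set.univ : Set K)] :
    CompactSpace K := by
  have hfin : _root_.Finite (Σ n, Topology.RelCWComplex.cell (Set.univ : Set K) n) :=
    Topology.RelCWComplex.finite_cells_of_finite (C := (Set.univ : Set K))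
  have h : ⋃ (p : Σ n, Topology.RelCWComplex.cell (Set.univ : Set K) n),
      Topology.RelCWComplex.closedCell p.1 p.2 = (Set.univ : Set K) := by
    rw [Set.iUnion_sigma]
    exact Topology.CWComplex.union (C := (Set.univ : Set K))
  constructor
  rw [← h]
  exact isCompact_iUnion fun p => Topology.RelCWComplex.isCompact_closedCell

theorem FinitelyDominated.compactly {Y : Type} [TopologicalSpace Y] (h : FinitelyDominated Y) :
    CompactlyDominated Y := by
  obtain ⟨K, _, _, _, _, i, r, H⟩ := h
  exact ⟨K, _, compactSpace_of_finite K, i, r, H⟩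

theorem result :
    ∃ (X : Type) (_ : TopologicalSpace X) (_ : T2Space X)
      (_ : Topology.CWComplex (Set.univ : Set X)) (_ : ConnectedSpace X) (x₀ : X)
      (φ : FundamentalGroup X x₀ →* Multiplicative ℤ),
      Topology.RelCWComplex.Finite (Set.univ : Set X) ∧
      FinitelyDominated X ∧
      Function.Surjective φ ∧
      (∃ (n : ℕ) (R : Finset (FreeGroup (Fin n))),
        Nonempty (↥φ.ker ≃* PresentedGroup (R : Set (FreeGroup (Fin n))))) ∧
      ∃ (X₂ : Type) (_ : TopologicalSpace X₂) (_ : ConnectedSpace X₂) (p₂ : X₂ → X)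
        (h : C(X, X₂)),
        IsCoveringMap p₂ ∧
        (∀ γ : Path x₀ x₀, (∃ γ' : Path (h x₀) (h x₀), ∀ s, p₂ (γ' s) = γ s) ↔
          (2 : ℤ) ∣ Multiplicative.toAdd (φ (FundamentalGroup.fromPath (Quotient.mk _ γ)))) ∧
        (∃ g : C(X₂, X), (g.comp h).Homotopic (ContinuousMap.id X) ∧
          (h.comp g).Homotopic (ContinuousMap.id X₂)) ∧
        (∀ δ : Path (h x₀) (h x₀),
          (∃ γ : Path x₀ x₀, φ (FundamentalGroup.fromPath (Quotient.mk _ γ)) = 1 ∧
            ∀ s, p₂ (δ s) = γ s) ↔
          (∃ γ : Path x₀ x₀, φ (FundamentalGroup.fromPath (Quotient.mk _ γ)) = 1 ∧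
            (γ.map h.continuous).Homotopic δ)) ∧
        ∃ (Xinf : Type) (_ : TopologicalSpace Xinf) (_ : ConnectedSpace Xinf) (pinf : Xinf → X)
          (xinf : Xinf),
          IsCoveringMap pinf ∧
          (∀ γ : Path x₀ x₀, (∃ γ' : Path xinf xinf, ∀ s, pinf (γ' s) = γ s) ↔
            φ (FundamentalGroup.fromPath (Quotient.mk _ γ)) = 1) ∧
          ¬ FinitelyDominated Xinf ∧ ¬ CompactlyDominated Xinf := by
  obtain ⟨F⟩ := exists_FCW
  obtain ⟨cw, hfin⟩ := F.exists_cwComplex
  obtain ⟨h, hh, hD⟩ := exists_strict
  have hx := h_xpt h hD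
  have hnot : ¬ CompactlyDominated int.X := by
    rintro ⟨K, _, _, i, r, H⟩
    exact GS.not_dominated_of (isCoveringMap_fX shGS_bij GS.int_bij shJ shJ_hom) K i r H
  refine ⟨one.X, inferInstance, inferInstance, cw, inferInstance, one.xpt (), phi, hfin,
    ⟨one.X, inferInstance, inferInstance, cw, hfin, .id _, .id _, .refl _⟩, phi_surjective,
    phi_ker_fp, two.X, inferInstance, inferInstance, two.pr, h, pr_cov two_bij, ?_, hh, ?_,
    int.X, inferInstance, inferInstance, int.pr, int.xpt 0, pr_cov GS.int_bij, ?_,
    fun hf => hnot hf.compactly, hnot⟩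
  · rw [hx]
    exact lift_two
  · exact cond_G h hD hh
  · exact lift_int

end Pool.Agent.Results.MP_88597d_gt.NotFinDominated
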